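import Pool.Agent.Helper687_KRS.Prod

/-!
# Low K-groups of extensions by finite products of indecomposable groups with trivial centers

`C` is a class of groups with the closure properties `ClosedE C`. They are published for the class of groups which
satisfy the Full Farrell-Jones Conjecture, and `Wh(H) = 0` and `K̃₀(ℤH) = 0` for the torsion-free groups `H` in this
class. `MT C A` means that all mapping tori `A ⋊ ℤ` of the group `A` are in `C`.

Let `N` be the product of finitely many nontrivial groups `A i` with trivial centers which are not direct products
of two nontrivial groups, and let `MT C (A i)` for all `i`. Let `N` be normal in `G` and let `G ⧸ N` be in `C`.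

1. `G` is in `C`.
2. If `G` is torsion-free, and `Wh(H) = 0` and the finitely generated projective modules over `ℤH` are stably free
   for all torsion-free groups `H` in `C`, then `Wh(G) = 0` and the finitely generated projective modules over `ℤG`
   are stably free.

Outline of the proof. All automorphisms of `N` permute the factors `A i` (a case of the theorem of Krull, Remak and
Schmidt without chain conditions). So the kernels of the projections of `N` to the factors have stabilizers of
finite index in `Aut N`, and a subgroup of finite index of `G` embeds in a product of extensions of subgroups of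
`G ⧸ N` by the groups `A i`.
-/

set_option autoImplicit false

namespace Pool.Agent.Results.MP_16fe43_al.ProductKernels

open Pool.Agent.Helper687_KRS
open Pool.Agent.Helper687_RF (WhZero TorFree)
open Pool.Agent.Helper687_Borel (MT)
open Pool.Agent.Y110.FJ (ClosedE)

/-- finitely generated projective modules over the integral group ring of `G` are stably free -/
def StablyFree (G : Type) [Group G] : Prop :=
  ∀ (P : Type) [AddCommGroup P] [Module (MonoidAlgebra ℤ G) P],
    Module.Finite (MonoidAlgebra ℤ G) P → Module.Projective (MonoidAlgebra ℤ G) P →
    ∃ n m : ℕ, Nonempty ((P × (Fin n → MonoidAlgebra ℤ G)) ≃ₗ[MonoidAlgebra ℤ G]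
      (Fin m → MonoidAlgebra ℤ G))

/-- extensions of groups in `C` by finite products of indecomposable groups with trivial centers and mapping
tori in `C` -/
def ProdKernel (C : ∀ (G : Type) [Group G], Prop) (G : Type) [Group G] : Prop :=
  ∃ (ι : Type) (_ : Finite ι) (A : ι → Type) (_ : ∀ i, Group (A i)) (N : Subgroup G) (_ : N.Normal),
    (∀ i, Indec (A i) ∧ MT C (A i)) ∧ Nonempty (N ≃* ∀ i, A i) ∧ C (G ⧸ N)

theorem result (C : ∀ (G : Type) [Group G], Prop) (hC : ClosedE C) :
    -- 1. membership
    (∀ (G : Type) [Group G], ProdKernel C G → C G) ∧
    -- 2. low K-groups
    ((∀ (H : Type) [Group H], TorFree H → C H → WhZero H ∧ StablyFree H) →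
      ∀ (G : Type) [Group G], TorFree G → ProdKernel C G → WhZero G ∧ StablyFree G) := by
  have h1 : ∀ (G : Type) [Group G], ProdKernel C G → C G := by
    rintro G _ ⟨ι, _, A, _, N, _, hA, ⟨e⟩, hQ⟩
    exact prod_ext hC A (fun i => (hA i).1) (fun i => (hA i).2) N e hQ
  exact ⟨h1, fun hP G _ hG hE => hP G hG (h1 G hE)⟩

end Pool.Agent.Results.MP_16fe43_al.ProductKernels
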